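import Mathlib

/-!
# A generic family of functions on the rational plane

For the proof that ternary fields of semi-translation planes need not be linear over the Baer subplane: we construct by a
generic (free) construction a sequence of functions `σ_j : ℚ² → ℚ²` whose graphs, with their translates, are the lines of a
projective plane outside of a prescribed nonlinear net.
-/

set_option autoImplicit false

namespace Pool.Agent.Q232.ST

abbrev V : Type := ℚ × ℚ

/-- the functional whose kernel is the line of slope `s` through the origin -/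
def L : Option ℚ → V → ℚ
  | some s, v => v.2 - s * v.1
  | none, v => v.1

/-- the correction term -/
def h : Option ℚ → V → ℚ
  | some s, v => s * (s - 1) * (v.2 - s * v.1) * v.1
  | none, _ => 0

theorem L_sub (s : Option ℚ) (x y : V) : L s (x - y) = L s x - L s y := by
  cases s
  · simp [L]
  · simp [L]; ring

theorem L_add (s : Option ℚ) (x y : V) : L s (x + y) = L s x + L s y := by
  cases s
  · simp [L]
  · simp [L]; ring

theorem L_zero (s : Option ℚ) : L s 0 = 0 := by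
  cases s <;> simp [L]

theorem L_inj {s s' : Option ℚ} (hs : s ≠ s') {x : V} (h1 : L s x = 0) (h2 : L s' x = 0) : x = 0 := by
  rcases s with _ | s <;> rcases s' with _ | s'
  · exact absurd rfl hs
  · simp only [L] at h1 h2
    have : x.2 = 0 := by rw [h1] at h2; linarith
    exact Prod.ext h1 this
  · simp only [L] at h1 h2
    have : x.2 = 0 := by rw [h2] at h1; linarith
    exact Prod.ext h2 this
  · simp only [L] at h1 h2
    have hne : s - s' ≠ 0 := fun h0 => hs (by rw [sub_eq_zero.1 h0])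
    have h3 : (s - s') * x.1 = 0 := by linarith
    have h4 : x.1 = 0 := (mul_eq_zero.1 h3).resolve_left hne
    have : x.2 = 0 := by rw [h4] at h1; linarith
    exact Prod.ext h4 this

theorem exists_L (x : V) : ∃ s, L s x = 0 := by
  by_cases hx : x.1 = 0
  · exact ⟨none, hx⟩
  · refine ⟨some (x.2 / x.1), ?_⟩
    simp only [L]
    rw [div_mul_cancel₀ _ hx, sub_self]

/-- points of a line, avoiding finitely many points and finitely many other lines -/
theorem avoid (s : Option ℚ) (c0 : ℚ) (F : Finset (Option ℚ × ℚ)) (hF : ∀ p ∈ F, p.1 ≠ s) (G : Finset V) :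
    ∃ w : V, L s w = c0 ∧ w ∉ G ∧ ∀ p ∈ F, L p.1 w ≠ p.2 := by
  obtain ⟨w, hw, hinj⟩ : ∃ w : ℚ → V, (∀ t, L s (w t) = c0) ∧ Function.Injective w := by
    rcases s with _ | s
    · exact ⟨fun t => (c0, t), fun t => rfl, fun a b hab => congrArg Prod.snd hab⟩
    · refine ⟨fun t => (t, c0 + s * t), fun t => ?_, fun a b hab => congrArg Prod.fst hab⟩
      simp [L]
  have hfin : ((⋃ p ∈ F, {t : ℚ | L p.1 (w t) = p.2}) ∪ w ⁻¹' (G : Set V)).Finite := by
    refine Set.Finite.union (Set.Finite.biUnion F.finite_toSet fun p hp => ?_)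
      (Set.Finite.preimage hinj.injOn G.finite_toSet)
    refine Set.Subsingleton.finite fun a ha b hb => hinj ?_
    have h1 : L s (w a - w b) = 0 := by rw [L_sub, hw, hw, sub_self]
    have h2 : L p.1 (w a - w b) = 0 := by
      rw [L_sub]
      have e1 : L p.1 (w a) = p.2 := ha
      have e2 : L p.1 (w b) = p.2 := hb
      rw [e1, e2, sub_self]
    exact sub_eq_zero.1 (L_inj (hF p hp) h2 h1)
  obtain ⟨t, ht⟩ := hfin.exists_notMem
  refine ⟨w t, hw t, fun hG => ht (Or.inr hG), fun p hp he => ht (Or.inl ?_)⟩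
  simp only [Set.mem_iUnion]
  exact ⟨p, hp, he⟩

/-- points of the plane avoiding finitely many lines and points -/
theorem avoid' (F : Finset (Option ℚ × ℚ)) (G : Finset V) :
    ∃ w : V, w ∉ G ∧ ∀ p ∈ F, L p.1 w ≠ p.2 := by
  obtain ⟨s, hs⟩ : ∃ s : Option ℚ, s ∉ F.image Prod.fst := Infinite.exists_notMem_finset _
  obtain ⟨w, -, h1, h2⟩ := avoid s 0 F (fun p hp he => hs (Finset.mem_image.2 ⟨p, hp, he⟩)) G
  exact ⟨w, h1, h2⟩

/-- the net coordinate of the point `(z, v)` for the slope `s` -/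
def c (s : Option ℚ) (v z : V) : ℚ := L s z - h s v

/-- the conditions: finite partial families of functions -/
structure Good (S : Finset (ℕ × V × V)) : Prop where
  fn : ∀ j v a a', (j, v, a) ∈ S → (j, v, a') ∈ S → a = a'
  diff : ∀ i j v v' a a' d d', i ≠ j → v ≠ v' → (j, v, a) ∈ S → (j, v', a') ∈ S → (i, v, d) ∈ S →
    (i, v', d') ∈ S → a - a' ≠ d - d'
  net : ∀ j v v' a a' s, v ≠ v' → (j, v, a) ∈ S → (j, v', a') ∈ S → L s v = L s v' → c s v a ≠ c s v' a'

theorem Good.insert {S : Finset (ℕ × V × V)} (hS : Good S) {j : ℕ} {v w : V} (hnd : ∀ a, (j, v, a) ∉ S)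
    (ha : ∀ v' a' s, (j, v', a') ∈ S → L s v = L s v' → c s v w ≠ c s v' a')
    (hb : ∀ i d v' a' d', i ≠ j → (i, v, d) ∈ S → (j, v', a') ∈ S → (i, v', d') ∈ S → w - a' ≠ d - d') :
    Good (insert (j, v, w) S) where
  fn := by
    intro j0 v0 a a' h1 h2
    simp only [Finset.mem_insert, Prod.mk.injEq] at h1 h2
    rcases h1 with ⟨rfl, rfl, rfl⟩ | h1 <;> rcases h2 with ⟨h3, h4, h5⟩ | h2
    · exact h5.symm
    · exact absurd h2 (hnd _)
    · subst h3 h4 h5
      exact absurd h1 (hnd _)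
    · exact hS.fn _ _ _ _ h1 h2
  diff := by
    intro i0 j0 v0 v0' a a' d d' hij hv h1 h2 h3 h4
    simp only [Finset.mem_insert, Prod.mk.injEq] at h1 h2 h3 h4
    rcases h1 with ⟨e1, e2, e3⟩ | h1
    · subst e1 e2 e3
      have h2' : (j0, v0', a') ∈ S := h2.resolve_left fun hh => hv hh.2.1.symm
      have h3' : (i0, v0, d) ∈ S := h3.resolve_left fun hh => hij hh.1
      have h4' : (i0, v0', d') ∈ S := h4.resolve_left fun hh => hij hh.1
      exact hb _ _ _ _ _ hij h3' h2' h4'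
    · rcases h2 with ⟨e1, e2, e3⟩ | h2
      · subst e1 e2 e3
        have h3' : (i0, v0, d) ∈ S := h3.resolve_left fun hh => hij hh.1
        have h4' : (i0, v0', d') ∈ S := h4.resolve_left fun hh => hij hh.1
        intro he
        refine hb _ _ _ _ _ hij h4' h1 h3' ?_
        rw [← neg_sub a a', he, neg_sub]
      · rcases h3 with ⟨e1, e2, e3⟩ | h3
        · subst e1 e2 e3
          have h4' : (i0, v0', d') ∈ S := h4.resolve_left fun hh => hv hh.2.1.symm
          exact fun he => hb _ _ _ _ _ hij.symm h1 h4' h2 he.symm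
        · rcases h4 with ⟨e1, e2, e3⟩ | h4
          · subst e1 e2 e3
            intro he
            refine hb _ _ _ _ _ hij.symm h2 h3 h1 ?_
            rw [← neg_sub d d', ← he, neg_sub]
          · exact hS.diff _ _ _ _ _ _ _ _ hij hv h1 h2 h3 h4
  net := by
    intro j0 v0 v0' a a' s hv h1 h2 hs
    simp only [Finset.mem_insert, Prod.mk.injEq] at h1 h2
    rcases h1 with ⟨e1, e2, e3⟩ | h1
    · subst e1 e2 e3
      have h2' : (j0, v0', a') ∈ S := h2.resolve_left fun hh => hv hh.2.1.symm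
      exact ha _ _ _ h2' hs
    · rcases h2 with ⟨e1, e2, e3⟩ | h2
      · subst e1 e2 e3
        exact (ha _ _ _ h1 hs.symm).symm
      · exact hS.net _ _ _ _ _ _ hv h1 h2 hs

/-- the lines to avoid for a new value at `v` -/
noncomputable def slope (v v' : V) : Option ℚ := Classical.choose (exists_L (v - v'))

theorem slope_spec (v v' : V) : L (slope v v') v = L (slope v v') v' := by
  have := Classical.choose_spec (exists_L (v - v'))
  rw [L_sub] at this
  exact sub_eq_zero.1 this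

theorem slope_uniq {v v' : V} (hv : v ≠ v') {s : Option ℚ} (hs : L s v = L s v') : s = slope v v' := by
  by_contra hne
  refine hv (sub_eq_zero.1 (L_inj hne (x := v - v') ?_ ?_))
  · rw [L_sub, hs, sub_self]
  · rw [L_sub, slope_spec, sub_self]

open Classical in
/-- the lines which a new value of `σ_j` at `v` must avoid -/
noncomputable def bad (S : Finset (ℕ × V × V)) (j : ℕ) (v : V) : Finset (Option ℚ × ℚ) :=
  (S.filter fun x => x.1 = j).image
    fun x => (slope v x.2.1, h (slope v x.2.1) v + c (slope v x.2.1) x.2.1 x.2.2)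

theorem bad_spec {S : Finset (ℕ × V × V)} {j : ℕ} {v w : V} (hnd : ∀ a, (j, v, a) ∉ S)
    (hw : ∀ p ∈ bad S j v, L p.1 w ≠ p.2) :
    ∀ v' a' s, (j, v', a') ∈ S → L s v = L s v' → c s v w ≠ c s v' a' := by
  intro v' a' s hm hs he
  have hv : v ≠ v' := by rintro rfl; exact hnd _ hm
  have h1 := slope_uniq hv hs
  subst h1
  refine hw (slope v v', h (slope v v') v + c (slope v v') v' a') ?_ ?_
  · unfold bad
    refine Finset.mem_image.2 ⟨(j, v', a'), Finset.mem_filter.2 ⟨hm, rfl⟩, rfl⟩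
  · show L (slope v v') w = _
    rw [← he]
    unfold c
    ring

/-- values can be defined -/
theorem dense0 {S : Finset (ℕ × V × V)} (hS : Good S) (j : ℕ) (v : V) :
    ∃ S', Good S' ∧ S ⊆ S' ∧ ∃ a, (j, v, a) ∈ S' := by
  classical
  by_cases hd : ∃ a, (j, v, a) ∈ S
  · exact ⟨S, hS, subset_rfl, hd⟩
  push Not at hd
  obtain ⟨w, hw1, hw2⟩ := avoid' (bad S j v)
    ((S ×ˢ (S ×ˢ S)).image fun x => x.1.2.2 - x.2.1.2.2 + x.2.2.2.2)
  refine ⟨insert (j, v, w) S, hS.insert hd (bad_spec hd hw2) ?_, Finset.subset_insert _ _, w,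
    Finset.mem_insert_self _ _⟩
  intro i d v' a' d' _ h1 h2 h3 he
  refine hw1 (Finset.mem_image.2 ⟨((i, v, d), ((i, v', d'), (j, v', a'))), ?_, ?_⟩)
  · simp only [Finset.mem_product]
    exact ⟨h1, h3, h2⟩
  · show d - d' + a' = w
    rw [← he, sub_add_cancel]

/-- two points can be joined -/
theorem dense1 {S : Finset (ℕ × V × V)} (hS : Good S) (v z v' z' : V) (hv : v ≠ v')
    (hn : ∀ s, L s v = L s v' → c s v z ≠ c s v' z') :
    ∃ S', Good S' ∧ S ⊆ S' ∧ ∃ j a a', (j, v, a) ∈ S' ∧ (j, v', a') ∈ S' ∧ a - a' = z - z' := by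
  classical
  by_cases hd : ∃ j a a', (j, v, a) ∈ S ∧ (j, v', a') ∈ S ∧ a - a' = z - z'
  · exact ⟨S, hS, subset_rfl, hd⟩
  obtain ⟨j, hj⟩ : ∃ j : ℕ, j ∉ S.image Prod.fst := Infinite.exists_notMem_finset _
  have hj' : ∀ x a, (j, x, a) ∉ S := fun x a hm => hj (Finset.mem_image.2 ⟨_, hm, rfl⟩)
  have h1 : Good (insert (j, v', z') S) := by
    refine hS.insert (hj' v') ?_ ?_
    · intro x a s hm
      exact absurd hm (hj' _ _)
    · intro i d x a d' _ _ hm
      exact absurd hm (hj' _ _)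
  refine ⟨insert (j, v, z) (insert (j, v', z') S), h1.insert ?_ ?_ ?_,
    (Finset.subset_insert _ _).trans (Finset.subset_insert _ _), j, z, z', ?_, ?_, rfl⟩
  · intro a hm
    simp only [Finset.mem_insert, Prod.mk.injEq] at hm
    rcases hm with hm | hm
    · exact hv hm.2.1
    · exact hj' _ _ hm
  · intro x a s hm hs
    simp only [Finset.mem_insert, Prod.mk.injEq] at hm
    rcases hm with ⟨-, rfl, rfl⟩ | hm
    · exact hn s hs
    · exact absurd hm (hj' _ _)
  · intro i d x a d' hi h2 h3 h4 he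
    simp only [Finset.mem_insert, Prod.mk.injEq] at h2 h3 h4
    rcases h3 with ⟨-, rfl, rfl⟩ | h3
    · have h2' : (i, v, d) ∈ S := h2.resolve_left fun hh => hi hh.1
      have h4' : (i, x, d') ∈ S := h4.resolve_left fun hh => hi hh.1
      exact hd ⟨i, d, d', h2', h4', he.symm⟩
    · exact absurd h3 (hj' _ _)
  · exact Finset.mem_insert_self _ _
  · exact Finset.mem_insert_of_mem (Finset.mem_insert_self _ _)

/-- two extra lines can be intersected -/
theorem dense2 {S : Finset (ℕ × V × V)} (hS : Good S) (i j : ℕ) (g : V) (hij : i ≠ j) :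
    ∃ S', Good S' ∧ S ⊆ S' ∧ ∃ v a d, (i, v, a) ∈ S' ∧ (j, v, d) ∈ S' ∧ a - d = g := by
  classical
  by_cases hd : ∃ v a d, (i, v, a) ∈ S ∧ (j, v, d) ∈ S ∧ a - d = g
  · exact ⟨S, hS, subset_rfl, hd⟩
  obtain ⟨v, hv⟩ : ∃ v : V, v ∉ S.image fun x => x.2.1 := Infinite.exists_notMem_finset _
  have hv' : ∀ x a, (x, v, a) ∉ S := fun x a hm => hv (Finset.mem_image.2 ⟨_, hm, rfl⟩)
  obtain ⟨w, -, hw⟩ := avoid' (bad S j v ∪ (bad S i v).image fun p => (p.1, p.2 - L p.1 g)) ∅
  have hwj : ∀ p ∈ bad S j v, L p.1 w ≠ p.2 := fun p hp => hw p (Finset.mem_union_left _ hp)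
  have hwi : ∀ p ∈ bad S i v, L p.1 (w + g) ≠ p.2 := by
    intro p hp he
    refine hw (p.1, p.2 - L p.1 g) (Finset.mem_union_right _ (Finset.mem_image.2 ⟨p, hp, rfl⟩)) ?_
    show L p.1 w = p.2 - L p.1 g
    rw [← he, L_add]
    ring
  have h1 : Good (insert (j, v, w) S) := by
    refine hS.insert (hv' j) (bad_spec (hv' j) hwj) ?_
    intro i' d v' a' d' _ hm
    exact absurd hm (hv' _ _)
  refine ⟨insert (i, v, w + g) (insert (j, v, w) S), h1.insert ?_ ?_ ?_,
    (Finset.subset_insert _ _).trans (Finset.subset_insert _ _), v, w + g, w, ?_, ?_, ?_⟩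
  · intro a hm
    simp only [Finset.mem_insert, Prod.mk.injEq] at hm
    rcases hm with hm | hm
    · exact hij hm.1
    · exact hv' _ _ hm
  · intro v' a' s hm hs
    simp only [Finset.mem_insert, Prod.mk.injEq] at hm
    have hm' : (i, v', a') ∈ S := hm.resolve_left fun hh => hij hh.1
    exact bad_spec (hv' i) hwi v' a' s hm' hs
  · intro i' d v' a' d' hi h2 h3 h4 he
    simp only [Finset.mem_insert, Prod.mk.injEq] at h2 h3 h4
    have h3' : (i, v', a') ∈ S := h3.resolve_left fun hh => hij hh.1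
    rcases h2 with ⟨rfl, -, rfl⟩ | h2
    · rcases h4 with ⟨-, rfl, rfl⟩ | h4
      · exact hv' _ _ h3'
      · refine hd ⟨v', a', d', h3', h4, ?_⟩
        have : d + g - a' - (d - d') = 0 := by rw [he, sub_self]
        have h5 : g - (a' - d') = 0 := by rw [← this]; abel
        exact (sub_eq_zero.1 h5).symm
    · exact hv' _ _ h2
  · exact Finset.mem_insert_self _ _
  · exact Finset.mem_insert_of_mem (Finset.mem_insert_self _ _)
  · abel

/-- an extra line can be intersected with a line of the net -/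
theorem dense3 {S : Finset (ℕ × V × V)} (hS : Good S) (j : ℕ) (s : Option ℚ) (b0 c0 : ℚ) :
    ∃ S', Good S' ∧ S ⊆ S' ∧ ∃ v a, (j, v, a) ∈ S' ∧ L s v = b0 ∧ c s v a = c0 := by
  classical
  by_cases hd : ∃ v a, (j, v, a) ∈ S ∧ L s v = b0 ∧ c s v a = c0
  · exact ⟨S, hS, subset_rfl, hd⟩
  obtain ⟨v, hvb, hv, -⟩ := avoid s b0 ∅ (by simp) (S.image fun x => x.2.1)
  have hv' : ∀ x a, (x, v, a) ∉ S := fun x a hm => hv (Finset.mem_image.2 ⟨_, hm, rfl⟩)
  obtain ⟨w, hw0, -, hw⟩ := avoid s (c0 + h s v) ((bad S j v).filter fun p => p.1 ≠ s)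
    (fun p hp => (Finset.mem_filter.1 hp).2) ∅
  have hc : c s v w = c0 := by
    unfold c
    rw [hw0]
    ring
  refine ⟨insert (j, v, w) S, hS.insert (hv' j) (bad_spec (hv' j) ?_) ?_, Finset.subset_insert _ _, v, w,
    Finset.mem_insert_self _ _, hvb, hc⟩
  · intro p hp
    by_cases hps : p.1 = s
    · unfold bad at hp
      obtain ⟨⟨j', v', a'⟩, hm, rfl⟩ := Finset.mem_image.1 hp
      obtain ⟨hm1, hm2⟩ := Finset.mem_filter.1 hm
      simp only at hm2 hps ⊢
      subst hm2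
      rw [hps]
      intro he
      refine hd ⟨v', a', hm1, ?_, ?_⟩
      · rw [← hvb, ← hps]
        exact (slope_spec v v').symm
      · rw [← hc]
        unfold c at he ⊢
        linarith
    · exact hw p (Finset.mem_filter.2 ⟨hp, hps⟩)
  · intro i d v' a' d' _ hm
    exact absurd hm (hv' _ _)

/-- the poset of finite partial families -/
def Po : Type := {S : Finset (ℕ × V × V) // Good S}

instance : Preorder Po := inferInstanceAs (Preorder {S : Finset (ℕ × V × V) // Good S})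

/-- the tasks -/
abbrev Task : Type := (ℕ × V) ⊕ ((V × V × V × V) ⊕ ((ℕ × ℕ × V) ⊕ (ℕ × Option ℚ × ℚ × ℚ)))

/-- a task is fulfilled -/
def Done (S : Finset (ℕ × V × V)) : Task → Prop
  | Sum.inl (j, v) => ∃ a, (j, v, a) ∈ S
  | Sum.inr (Sum.inl (v, z, v', z')) => v = v' ∨ (∃ s, L s v = L s v' ∧ c s v z = c s v' z') ∨
      ∃ j a a', (j, v, a) ∈ S ∧ (j, v', a') ∈ S ∧ a - a' = z - z'
  | Sum.inr (Sum.inr (Sum.inl (i, j, g))) => i = j ∨ ∃ v a d, (i, v, a) ∈ S ∧ (j, v, d) ∈ S ∧ a - d = g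
  | Sum.inr (Sum.inr (Sum.inr (j, s, b0, c0))) => ∃ v a, (j, v, a) ∈ S ∧ L s v = b0 ∧ c s v a = c0

theorem dense (t : Task) (S : Po) : ∃ S' : Po, Done S'.1 t ∧ S ≤ S' := by
  obtain ⟨S, hS⟩ := S
  rcases t with ⟨j, v⟩ | ⟨v, z, v', z'⟩ | ⟨i, j, g⟩ | ⟨j, s, b0, c0⟩
  · obtain ⟨S', h1, h2, h3⟩ := dense0 hS j v
    exact ⟨⟨S', h1⟩, h3, h2⟩
  · by_cases hv : v = v'
    · exact ⟨⟨S, hS⟩, Or.inl hv, le_refl _⟩
    by_cases hn : ∃ s, L s v = L s v' ∧ c s v z = c s v' z'
    · exact ⟨⟨S, hS⟩, Or.inr (Or.inl hn), le_refl _⟩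
    push Not at hn
    obtain ⟨S', h1, h2, h3⟩ := dense1 hS v z v' z' hv hn
    exact ⟨⟨S', h1⟩, Or.inr (Or.inr h3), h2⟩
  · by_cases hij : i = j
    · exact ⟨⟨S, hS⟩, Or.inl hij, le_refl _⟩
    obtain ⟨S', h1, h2, h3⟩ := dense2 hS i j g hij
    exact ⟨⟨S', h1⟩, Or.inr h3, h2⟩
  · obtain ⟨S', h1, h2, h3⟩ := dense3 hS j s b0 c0
    exact ⟨⟨S', h1⟩, h3, h2⟩

/-- **The generic family.** -/
theorem exists_family : ∃ σ : ℕ → V → V,
    (∀ i j, i ≠ j → ∀ v v', σ i v - σ j v = σ i v' - σ j v' → v = v') ∧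
    (∀ i j, i ≠ j → ∀ g, ∃ v, σ i v - σ j v = g) ∧
    (∀ v v', v ≠ v' → ∀ z z', (∀ s, L s v = L s v' → c s v z ≠ c s v' z') → ∃ j, σ j v - σ j v' = z - z') ∧
    (∀ j v v', v ≠ v' → ∀ s, L s v = L s v' → c s v (σ j v) ≠ c s v' (σ j v')) ∧
    (∀ j s b0 c0, ∃ v, L s v = b0 ∧ c s v (σ j v) = c0) := by
  classical
  have : Encodable Task := Encodable.ofCountable _
  let D : Task → Order.Cofinal Po := fun t => ⟨{S | Done S.1 t}, fun S => dense t S⟩
  have hempty : Good ∅ := ⟨by simp, by simp, by simp⟩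
  let q : ℕ → Po := Order.sequenceOfCofinals (⟨∅, hempty⟩ : Po) D
  have hmono : Monotone q := Order.sequenceOfCofinals.monotone _ D
  have hmem : ∀ t, ∃ n, Done (q n).1 t := fun t => ⟨_, Order.sequenceOfCofinals.encode_mem _ D t⟩
  have hsub : ∀ {n m}, n ≤ m → (q n).1 ⊆ (q m).1 := fun hnm => hmono hnm
  have hdef : ∀ j v, ∃ a, ∃ n, (j, v, a) ∈ (q n).1 := by
    intro j v
    obtain ⟨n, a, ha⟩ := hmem (Sum.inl (j, v))
    exact ⟨a, n, ha⟩
  choose σ N hσ using hdef
  have huniq : ∀ {j v a n}, (j, v, a) ∈ (q n).1 → a = σ j v := by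
    intro j v a n hm
    exact (q (max n (N j v))).2.fn _ _ _ _ (hsub (le_max_left _ _) hm) (hsub (le_max_right _ _) (hσ j v))
  refine ⟨σ, ?_, ?_, ?_, ?_, ?_⟩
  · intro i j hij v v' he
    by_contra hv
    let M := max (max (N i v) (N j v)) (max (N i v') (N j v'))
    have h1 : (i, v, σ i v) ∈ (q M).1 := hsub ((le_max_left _ _).trans (le_max_left _ _)) (hσ i v)
    have h2 : (j, v, σ j v) ∈ (q M).1 := hsub ((le_max_right _ _).trans (le_max_left _ _)) (hσ j v)
    have h3 : (i, v', σ i v') ∈ (q M).1 := hsub ((le_max_left _ _).trans (le_max_right _ _)) (hσ i v')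
    have h4 : (j, v', σ j v') ∈ (q M).1 := hsub ((le_max_right _ _).trans (le_max_right _ _)) (hσ j v')
    refine (q M).2.diff j i v v' _ _ _ _ hij.symm hv h1 h3 h2 h4 ?_
    have : σ i v - σ j v - (σ i v' - σ j v') = 0 := by rw [he, sub_self]
    have h5 : σ i v - σ i v' - (σ j v - σ j v') = 0 := by rw [← this]; abel
    exact sub_eq_zero.1 h5
  · intro i j hij g
    obtain ⟨n, hn⟩ := hmem (Sum.inr (Sum.inr (Sum.inl (i, j, g))))
    rcases hn with hn | ⟨v, a, d, h1, h2, h3⟩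
    · exact absurd hn hij
    · refine ⟨v, ?_⟩
      rw [← huniq h1, ← huniq h2, h3]
  · intro v v' hv z z' hn
    obtain ⟨n, hd⟩ := hmem (Sum.inr (Sum.inl (v, z, v', z')))
    rcases hd with hd | ⟨s, h1, h2⟩ | ⟨j, a, a', h1, h2, h3⟩
    · exact absurd hd hv
    · exact absurd h2 (hn s h1)
    · refine ⟨j, ?_⟩
      rw [← huniq h1, ← huniq h2, h3]
  · intro j v v' hv s hs
    exact (q (max (N j v) (N j v'))).2.net j v v' _ _ s hv (hsub (le_max_left _ _) (hσ j v))
      (hsub (le_max_right _ _) (hσ j v')) hs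
  · intro j s b0 c0
    obtain ⟨n, v, a, h1, h2, h3⟩ := hmem (Sum.inr (Sum.inr (Sum.inr (j, s, b0, c0))))
    refine ⟨v, h2, ?_⟩
    rw [← huniq h1, h3]

end Pool.Agent.Q232.ST
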